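import Pool.Agent.H452.BZ.Main

/-!
# Two-sided Bezout domains that are not RD, as algebras over every field (helper452)

For every field `k` there is a `k`-algebra `R` which is a domain, right Bezout and left Bezout, and
isomorphic to its opposite `k`-algebra, and which is an RD ring neither for right modules nor for
left modules. In particular such domains exist in every characteristic.
-/

set_option autoImplicit false

namespace Pool.Agent.Results.MP_41551b_al.EveryField

/-- Every finitely generated right ideal of `R` is cyclic. (A right ideal is an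
`Rᵐᵒᵖ`-submodule of `R`.) -/
def IsRightBezout (R : Type) [Ring R] : Prop :=
  ∀ I : Submodule Rᵐᵒᵖ R, I.FG → ∃ a : R, I = Submodule.span Rᵐᵒᵖ {a}

/-- Every finitely generated left ideal of `R` is cyclic. -/
def IsLeftBezout (R : Type) [Ring R] : Prop :=
  ∀ I : Submodule R R, I.FG → ∃ a : R, I = Submodule.span R {a}

/-- A submodule `N` of a right module `M` is RD-pure: `N ∩ M r = N r` for all `r`. -/
def RDPure {R : Type} [Ring R] {M : Type} [AddCommGroup M] [Module Rᵐᵒᵖ M]
    (N : Submodule Rᵐᵒᵖ M) : Prop :=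
  ∀ (r : R) (x : M), MulOpposite.op r • x ∈ N →
    ∃ y ∈ N, MulOpposite.op r • y = MulOpposite.op r • x

/-- A submodule `N` of a right module `M` is pure: every finite system of linear equations
`∑ i, x i * A i j = c j` with constants in `N` that has a solution in `M` has one in `N`. -/
def PureSub {R : Type} [Ring R] {M : Type} [AddCommGroup M] [Module Rᵐᵒᵖ M]
    (N : Submodule Rᵐᵒᵖ M) : Prop :=
  ∀ (m n : ℕ) (A : Matrix (Fin m) (Fin n) R) (c : Fin n → M), (∀ j, c j ∈ N) →
    (∃ x : Fin m → M, ∀ j, ∑ i, MulOpposite.op (A i j) • x i = c j) →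
    ∃ y : Fin m → M, (∀ i, y i ∈ N) ∧ ∀ j, ∑ i, MulOpposite.op (A i j) • y i = c j

/-- For right `R`-modules every RD-pure submodule is pure. -/
def IsRDRing (R : Type) [Ring R] : Prop :=
  ∀ (M : Type) [AddCommGroup M] [Module Rᵐᵒᵖ M] (N : Submodule Rᵐᵒᵖ M), RDPure N → PureSub N

/-- A submodule `N` of a left module `M` is RD-pure: `N ∩ r M = r N` for all `r`. -/
def RDPureLeft {R : Type} [Ring R] {M : Type} [AddCommGroup M] [Module R M]
    (N : Submodule R M) : Prop :=
  ∀ (r : R) (x : M), r • x ∈ N → ∃ y ∈ N, r • y = r • x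

/-- A submodule `N` of a left module `M` is pure: every finite system of linear equations
`∑ i, A i j * x i = c j` with constants in `N` that has a solution in `M` has one in `N`. -/
def PureSubLeft {R : Type} [Ring R] {M : Type} [AddCommGroup M] [Module R M]
    (N : Submodule R M) : Prop :=
  ∀ (m n : ℕ) (A : Matrix (Fin m) (Fin n) R) (c : Fin n → M), (∀ j, c j ∈ N) →
    (∃ x : Fin m → M, ∀ j, ∑ i, A i j • x i = c j) →
    ∃ y : Fin m → M, (∀ i, y i ∈ N) ∧ ∀ j, ∑ i, A i j • y i = c j

/-- For left `R`-modules every RD-pure submodule is pure. -/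
def IsLeftRDRing (R : Type) [Ring R] : Prop :=
  ∀ (M : Type) [AddCommGroup M] [Module R M] (N : Submodule R M), RDPureLeft N → PureSubLeft N

theorem left_of_iso {R : Type} [Ring R] (e : R ≃+* Rᵐᵒᵖ) (h : IsLeftRDRing R) : IsRDRing R := by
  intro M _ _ N hN m n A c hc hx
  letI : Module R M := Module.compHom M (e : R →+* Rᵐᵒᵖ)
  have hsm : ∀ (r : R) (x : M), r • x = e r • x := fun r x => rfl
  let N' : Submodule R M :=
    { carrier := N
      add_mem' := fun ha hb => N.add_mem ha hb
      zero_mem' := N.zero_mem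
      smul_mem' := fun r x hx => N.smul_mem (e r) hx }
  have hN' : RDPureLeft N' := by
    intro r x hx
    exact hN (MulOpposite.unop (e r)) x hx
  have h1 : ∀ (r : R) (x : M), e.symm (MulOpposite.op r) • x = MulOpposite.op r • x := by
    intro r x
    rw [hsm, e.apply_symm_apply]
  obtain ⟨x, hx⟩ := hx
  obtain ⟨y, hy, hy2⟩ := h M N' hN' m n (fun i j => e.symm (MulOpposite.op (A i j))) c hc
    ⟨x, fun j => by
      rw [← hx j]
      exact Finset.sum_congr rfl fun i _ => h1 _ _⟩
  refine ⟨y, hy, fun j => ?_⟩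
  rw [← hy2 j]
  exact Finset.sum_congr rfl fun i _ => (h1 _ _).symm

/-- For every field `k` there is a `k`-algebra `R`, isomorphic to its opposite algebra, which is a
domain, right Bezout and left Bezout, and for which neither all RD-pure submodules of right modules
nor all RD-pure submodules of left modules are pure. -/
theorem result (k : Type) [Field k] : ∃ (R : Type) (_ : Ring R) (_ : Algebra k R),
    IsDomain R ∧ IsRightBezout R ∧ IsLeftBezout R ∧ Nonempty (R ≃ₐ[k] Rᵐᵒᵖ) ∧
    ¬ IsRDRing R ∧ ¬ IsLeftRDRing R := by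
  obtain ⟨R, hR, hA, hd, hr, hl, ⟨e⟩, M, _, _, N, h1, h2⟩ := Pool.Agent.H452.BZ.main k
  have h3 : ¬ IsRDRing R := fun h => h2 (h M N h1)
  exact ⟨R, hR, hA, hd, hr, hl, ⟨e⟩, h3, fun h => h3 (left_of_iso e.toRingEquiv h)⟩

end Pool.Agent.Results.MP_41551b_al.EveryField
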